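import Pool.Agent.Lib.MP_845d9b_co.Cnt.Final

namespace Pool.Agent.Results.MP_845d9b_co.CommutativeCount

open Pool.Agent.DNeo

/-- Commutative D-neofields exist for all sufficiently large orders, and the number of their
isomorphism classes is `r ^ ((1/2 + o(1)) r)`. -/
theorem result : ∀ ε : ℝ, 0 < ε → ∃ r0 : ℕ, ∀ r : ℕ, r0 ≤ r →
    Nonempty (CommDNeofield r) ∧
    (r : ℝ) ^ ((1 / 2 - ε) * (r : ℝ)) ≤ (numClasses r : ℝ) ∧
    (numClasses r : ℝ) ≤ (r : ℝ) ^ ((1 / 2 + ε) * (r : ℝ)) :=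
  Pool.Agent.DNA.count_final

end Pool.Agent.Results.MP_845d9b_co.CommutativeCount
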