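import Pool.Agent.DNeo.Base36P
import Pool.Agent.DNeo.BasesA

namespace Pool.Agent.Results.MP_845d9b_co.NineExactly

open Pool.Agent.DNeo

lemma coprime_six {k : ℕ} (h2 : k % 2 = 1) (h3 : k % 3 ≠ 0) : Nat.Coprime k 6 := by
  have a : Nat.Coprime k 2 := (Nat.coprime_two_right).mpr (Nat.odd_iff.mpr h2)
  have b : Nat.Coprime k 3 := by
    rw [Nat.coprime_comm]
    exact (Nat.Prime.coprime_iff_not_dvd Nat.prime_three).mpr (fun h => h3 (Nat.mod_eq_zero_of_dvd h))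
  exact Nat.Coprime.mul_right a b

/-- If `r > 1` is odd and `9` divides `r - 1` but `27` does not, there is a D-neofield of order `r`. -/
theorem result : ∀ r : ℕ, 1 < r → r % 18 = 1 → ¬ 27 ∣ r - 1 → ExistsDNeofield r := by
  intro r h1 hr h27
  obtain ⟨n, rfl⟩ : ∃ n, r = 18 * n + 1 := ⟨r / 18, by omega⟩
  have hn0 : n ≠ 0 := by omega
  obtain ⟨a, k, hk, hnk⟩ : ∃ a k, ¬ 2 ∣ k ∧ n = 2 ^ a * k :=
    Nat.exists_eq_pow_mul_and_not_dvd hn0 2 (by norm_num)
  have hk2 : k % 2 = 1 := by omega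
  have hk3 : k % 3 ≠ 0 := by
    intro h
    apply h27
    obtain ⟨l, hl⟩ := Nat.dvd_of_mod_eq_zero h
    refine ⟨2 * 2 ^ a * l, ?_⟩
    rw [hnk, hl]
    rw [Nat.add_sub_cancel]
    ring
  rcases Nat.eq_zero_or_pos a with ha | ha
  · subst ha
    have h := existsDNeofield_of_base (k := k) (by norm_num) base18
      (Nat.odd_iff.mpr hk2) (coprime_six hk2 hk3)
    have h2 : 2 * 9 * k + 1 = 18 * n + 1 := by rw [hnk]; ring
    rwa [h2] at h
  · obtain ⟨b, rfl⟩ : ∃ b, a = b + 1 := ⟨a - 1, by omega⟩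
    have h := existsDNeofield_of_pbase (k := k) (by norm_num) pbase36
      (Nat.odd_iff.mpr hk2) (coprime_six hk2 hk3) b
    have h2 : 2 * (2 ^ b * 18) * k + 1 = 18 * n + 1 := by rw [hnk, pow_succ]; ring
    rwa [h2] at h

end Pool.Agent.Results.MP_845d9b_co.NineExactly
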