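import Pool.Agent.DNeo.Fam8

namespace Pool.Agent.Results.MP_845d9b_co.SevenModEight

open Pool.Agent.DNeo

lemma existsA (q : ℕ) : ExistsDNeofield (2 * (8 * q + 2) + 3) := by
  refine existsDNeofield_of_even (8 * q + 2) (cA (16 * q + 6)) ?_ ?_ ?_ ?_
  · intro i _ _
    unfold cA
    split_ifs <;> omega
  · intro i _ _
    unfold cA
    split_ifs <;> omega
  · intro i j hi hi' hj hj' hd
    push_cast at hi hi' hj hj'
    refine cA_x q (by omega) i j hi hi' hj hj' ?_
    have : (2 * (2 * ((8 * q + 2 : ℕ) : ℤ) + 2)) = 2 * (16 * (q : ℤ) + 6) := by push_cast; ring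
    rw [this] at hd
    exact hd
  · intro i j hi hi' hj hj' hd
    push_cast at hi hi' hj hj'
    refine cA_e q (by omega) i j hi hi' hj hj' ?_
    have : (2 * (2 * ((8 * q + 2 : ℕ) : ℤ) + 2)) = 2 * (16 * (q : ℤ) + 6) := by push_cast; ring
    rw [this] at hd
    exact hd

lemma existsB (q : ℕ) : ExistsDNeofield (2 * (8 * q + 6) + 3) := by
  refine existsDNeofield_of_even (8 * q + 6) (cB (16 * q + 14)) ?_ ?_ ?_ ?_
  · intro i _ _
    unfold cB
    split_ifs <;> omega
  · intro i _ _
    unfold cB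
    split_ifs <;> omega
  · intro i j hi hi' hj hj' hd
    push_cast at hi hi' hj hj'
    refine cB_x q (by omega) i j hi hi' hj hj' ?_
    have : (2 * (2 * ((8 * q + 6 : ℕ) : ℤ) + 2)) = 2 * (16 * (q : ℤ) + 14) := by push_cast; ring
    rw [this] at hd
    exact hd
  · intro i j hi hi' hj hj' hd
    push_cast at hi hi' hj hj'
    refine cB_e q (by omega) i j hi hi' hj hj' ?_
    have : (2 * (2 * ((8 * q + 6 : ℕ) : ℤ) + 2)) = 2 * (16 * (q : ℤ) + 14) := by push_cast; ring
    rw [this] at hd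
    exact hd

/-- For every `r ≡ 7 (mod 8)` there is a D-neofield of order `r`. -/
theorem result : ∀ r : ℕ, r % 8 = 7 → ExistsDNeofield r := by
  intro r hr
  rcases (by omega : r % 16 = 7 ∨ r % 16 = 15) with h | h
  · have h1 := existsA (r / 16)
    have h2 : 2 * (8 * (r / 16) + 2) + 3 = r := by omega
    rwa [h2] at h1
  · have h1 := existsB (r / 16)
    have h2 : 2 * (8 * (r / 16) + 6) + 3 = r := by omega
    rwa [h2] at h1

end Pool.Agent.Results.MP_845d9b_co.SevenModEight
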